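import Mathlib

set_option autoImplicit false

/-!
# A (3,2,1)-conjugate-orthogonal idempotent Latin square of order 12

An idempotent quasigroup `⟨S, ∘⟩` is orthogonal to its (3,2,1)-conjugate if and only if for every `x` the map
`y ↦ (x ∘ y) ∘ y` is injective. The square below was found by computer search among the squares with an automorphism
that is a product of two disjoint cycles of length 6.
-/

namespace Pool.Agent.Results.MP_b1d8d5_co.OrderTwelve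

/-- `⟨S, op⟩` is a quasigroup: each of the equations `op a x = b` and `op x a = b` has exactly one solution `x`. -/
def IsQuasigroup {S : Type} (op : S → S → S) : Prop :=
  (∀ a b, ∃! x, op a x = b) ∧ ∀ a b, ∃! x, op x a = b

/-- `conj` is the (3,2,1)-conjugate of `op`: `conj z y = x` if and only if `op x y = z`. -/
def IsConj321 {S : Type} (op conj : S → S → S) : Prop :=
  ∀ x y z, conj z y = x ↔ op x y = z

/-- `op` and `op'` are orthogonal: there are no `a ≠ b` and `c ≠ d` with `op a c = op b d` and `op' a c = op' b d`. -/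
def Orthogonal {S : Type} (op op' : S → S → S) : Prop :=
  ¬ ∃ a b c d : S, a ≠ b ∧ c ≠ d ∧ op a c = op b d ∧ op' a c = op' b d

/-- `op` is a (3,2,1)-COILS of order `v`: an idempotent quasigroup on `Fin v` that is orthogonal to its
(3,2,1)-conjugate. -/
def IsCOILS321 (v : ℕ) (op : Fin v → Fin v → Fin v) : Prop :=
  IsQuasigroup op ∧ (∀ x, op x x = x) ∧ ∃ conj, IsConj321 op conj ∧ Orthogonal op conj

/-- The rows of the square, one after the other. -/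
def tabL : List (Fin 12) :=
  [0, 5, 3, 6, 11, 7, 2, 1, 10, 4, 9, 8,
   8, 1, 0, 4, 7, 6, 9, 3, 2, 11, 5, 10,
   7, 9, 2, 1, 5, 8, 11, 10, 4, 3, 6, 0,
   9, 8, 10, 3, 2, 0, 1, 6, 11, 5, 4, 7,
   1, 10, 9, 11, 4, 3, 8, 2, 7, 6, 0, 5,
   4, 2, 11, 10, 6, 5, 0, 9, 3, 8, 7, 1,
   5, 4, 8, 7, 0, 10, 6, 11, 9, 2, 1, 3,
   11, 0, 5, 9, 8, 1, 4, 7, 6, 10, 3, 2,
   2, 6, 1, 0, 10, 9, 3, 5, 8, 7, 11, 4,
   10, 3, 7, 2, 1, 11, 5, 4, 0, 9, 8, 6,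
   6, 11, 4, 8, 3, 2, 7, 0, 5, 1, 10, 9,
   3, 7, 6, 5, 9, 4, 10, 8, 1, 0, 2, 11]

/-- Division on the left. -/
def tabR : List (Fin 12) :=
  [0, 7, 6, 2, 9, 1, 3, 5, 11, 10, 8, 4,
   2, 1, 8, 7, 3, 10, 5, 4, 0, 6, 11, 9,
   11, 3, 2, 9, 8, 4, 10, 0, 5, 1, 7, 6,
   5, 6, 4, 3, 10, 9, 7, 11, 1, 0, 2, 8,
   10, 0, 7, 5, 4, 11, 9, 8, 6, 2, 1, 3,
   6, 11, 1, 8, 0, 5, 4, 10, 9, 7, 3, 2,
   4, 10, 9, 11, 1, 0, 6, 3, 2, 8, 5, 7,
   1, 5, 11, 10, 6, 2, 8, 7, 4, 3, 9, 0,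
   3, 2, 0, 6, 11, 7, 1, 9, 8, 5, 4, 10,
   8, 4, 3, 1, 7, 6, 11, 2, 10, 9, 0, 5,
   7, 9, 5, 4, 2, 8, 0, 6, 3, 11, 10, 1,
   9, 8, 10, 0, 5, 3, 2, 1, 7, 4, 6, 11]

/-- Division on the right. -/
def tabC : List (Fin 12) :=
  [0, 4, 8, 11, 5, 6, 10, 2, 1, 3, 9, 7,
   7, 1, 5, 9, 6, 0, 8, 11, 3, 2, 4, 10,
   1, 8, 2, 0, 10, 7, 11, 9, 6, 4, 3, 5,
   8, 2, 9, 3, 1, 11, 0, 6, 10, 7, 5, 4,
   6, 9, 3, 10, 4, 2, 5, 1, 7, 11, 8, 0,
   3, 7, 10, 4, 11, 5, 1, 0, 2, 8, 6, 9,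
   5, 3, 0, 8, 7, 9, 6, 10, 4, 1, 11, 2,
   10, 0, 4, 1, 9, 8, 3, 7, 11, 5, 2, 6,
   9, 11, 1, 5, 2, 10, 7, 4, 8, 6, 0, 3,
   11, 10, 6, 2, 0, 3, 4, 8, 5, 9, 7, 1,
   4, 6, 11, 7, 3, 1, 2, 5, 9, 0, 10, 8,
   2, 5, 7, 6, 8, 4, 9, 3, 0, 10, 1, 11]

/-- The inverse of `y ↦ (x ∘ y) ∘ y`. -/
def tabS : List (Fin 12) :=
  [0, 5, 1, 7, 11, 8, 9, 3, 10, 4, 2, 6,
   9, 1, 0, 2, 8, 6, 7, 10, 4, 11, 5, 3,
   7, 10, 2, 1, 3, 9, 4, 8, 11, 5, 6, 0,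
   10, 8, 11, 3, 2, 4, 1, 5, 9, 6, 0, 7,
   5, 11, 9, 6, 4, 3, 8, 2, 0, 10, 7, 1,
   4, 0, 6, 10, 7, 5, 2, 9, 3, 1, 11, 8,
   8, 2, 5, 9, 0, 10, 6, 11, 7, 3, 1, 4,
   11, 9, 3, 0, 10, 1, 5, 7, 6, 8, 4, 2,
   2, 6, 10, 4, 1, 11, 3, 0, 8, 7, 9, 5,
   6, 3, 7, 11, 5, 2, 0, 4, 1, 9, 8, 10,
   3, 7, 4, 8, 6, 0, 11, 1, 5, 2, 10, 9,
   1, 4, 8, 5, 9, 7, 10, 6, 2, 0, 3, 11]

/-- Entry `(x, y)` of a table. -/
def get (t : List (Fin 12)) (x y : Fin 12) : Fin 12 := t.getD (12 * x.val + y.val) 0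

/-- The square. -/
def op (x y : Fin 12) : Fin 12 := get tabL x y

theorem row_left : ∀ x y, get tabR x (op x y) = y := by decide +kernel

theorem row_right : ∀ x z, op x (get tabR x z) = z := by decide +kernel

theorem col_left : ∀ x y, get tabC y (op x y) = x := by decide +kernel

theorem col_right : ∀ y z, op (get tabC y z) y = z := by decide +kernel

theorem sq_left : ∀ x y, get tabS x (op (op x y) y) = y := by decide +kernel

theorem idem : ∀ x, op x x = x := by decide +kernel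

/-- There is a (3,2,1)-COILS of order 12. -/
theorem result : ∃ op : Fin 12 → Fin 12 → Fin 12, IsCOILS321 12 op := by
  refine ⟨op, ⟨fun a b => ⟨get tabR a b, row_right a b, fun x hx => ?_⟩,
    fun a b => ⟨get tabC a b, col_right a b, fun x hx => ?_⟩⟩, idem,
    fun z y => get tabC y z, fun x y z => ⟨fun h => ?_, fun h => ?_⟩, ?_⟩
  · rw [← row_left a x, hx]
  · rw [← col_left x a, hx]
  · rw [← h]; exact col_right y z
  · rw [← h]; exact col_left x y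
  · rintro ⟨a, b, c, d, -, hcd, h1, h2⟩
    apply hcd
    have e1 : op (get tabC c a) c = a := col_right c a
    have e2 : op (get tabC d b) d = b := col_right d b
    simp only at h2
    have h3 : op (op (get tabC c a) c) c = op (op (get tabC c a) d) d := by
      rw [e1, h1]; conv_rhs => rw [h2]
      rw [e2]
    rw [← sq_left (get tabC c a) c, h3, sq_left]

end Pool.Agent.Results.MP_b1d8d5_co.OrderTwelve
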